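import Pool.Agent.H165R3.Fam3

/-!
# A transitive non-uniformly hyperbolic endomorphism which is not stably ergodic

The map `f` is the skew product `(x, y) ↦ (4 x, h (x, y))` of the two-torus, where `h (x, ·)` is the
inverse of `y ↦ y + (1/10) cos (2 π x) (1 - cos (2 π y))`. It preserves Lebesgue measure, it is
ergodic, hence transitive, and it is non-uniformly hyperbolic. Replacing `1 - cos (2 π y)` by
`cos (2 π δ) - cos (2 π y)` gives area-preserving maps which converge to `f` as `δ → 0` and leave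
the annulus `|y| < δ` invariant.
-/

set_option autoImplicit false

open Set Filter Topology MeasureTheory Function
open scoped ContDiff

namespace Pool.Agent.Results.MP_9eaa6a_an.NotStablyErgodic

/-- The two-torus. Its `volume` is the Haar probability measure. -/
abbrev Torus : Type := UnitAddCircle × UnitAddCircle

/-- The projection of the plane onto the two-torus. -/
def proj (z : ℝ × ℝ) : Torus := ((z.1 : UnitAddCircle), (z.2 : UnitAddCircle))

/-- `f` is an element of `End¹_μ(𝕋²)`, described with a lift `F` to the plane: a non-invertible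
`C¹` local diffeomorphism of the two-torus which preserves Lebesgue measure. -/
structure IsEndo (f : Torus → Torus) (F : ℝ × ℝ → ℝ × ℝ) : Prop where
  lift : ∀ z, f (proj z) = proj (F z)
  smooth : ContDiff ℝ 1 F
  local_diffeo : ∀ z, (fderiv ℝ F z).IsInvertible
  area : MeasurePreserving f (volume : Measure Torus) volume
  noninvertible : ¬ Injective f

/-- Some forward orbit is dense. -/
def IsTransitive (f : Torus → Torus) : Prop := ∃ w, Dense (range fun n : ℕ => f^[n] w)

/-- The conorm `inf {‖A v‖ : ‖v‖ = 1}`. -/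
noncomputable def conorm (A : ℝ × ℝ →L[ℝ] ℝ × ℝ) : ℝ := ⨅ v : {v : ℝ × ℝ // ‖v‖ = 1}, ‖A v.1‖

/-- Non-uniform hyperbolicity: at almost every point `w` of the torus the limits `χ⁺` of
`(1/n) log ‖D_w fⁿ‖` and `χ⁻` of `(1/n) log m(D_w fⁿ)` exist, and `χ⁻ < 0 < χ⁺`. The derivative of
`fⁿ` at `w` is that of the lift at any point `z` above `w`. -/
def IsNUH (F : ℝ × ℝ → ℝ × ℝ) : Prop :=
  ∀ᵐ w ∂(volume : Measure Torus), ∀ z : ℝ × ℝ, proj z = w → ∃ χm χp : ℝ, χm < 0 ∧ 0 < χp ∧
    Tendsto (fun n : ℕ => (1 / (n : ℝ)) * Real.log ‖fderiv ℝ (F^[n]) z‖) atTop (𝓝 χp) ∧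
    Tendsto (fun n : ℕ => (1 / (n : ℝ)) * Real.log (conorm (fderiv ℝ (F^[n]) z))) atTop (𝓝 χm)

/-- The lifts `F` and `G` are `ε`-close in the `C¹` topology. -/
def C1Close (ε : ℝ) (F G : ℝ × ℝ → ℝ × ℝ) : Prop :=
  ∀ z, ‖F z - G z‖ < ε ∧ ‖fderiv ℝ F z - fderiv ℝ G z‖ < ε

lemma isEndo (δ : ℝ) : IsEndo (H165R3.nS (Real.cos (2 * Real.pi * δ))).f
    (H165R3.nS (Real.cos (2 * Real.pi * δ))).F where
  lift z := (H165R3.nS _).f_pr z
  smooth := (H165R3.nS _).F_contDiff.of_le (by exact_mod_cast le_top)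
  local_diffeo z := by
    rw [((H165R3.nS _).F_hasFDerivAt z).fderiv]
    exact ⟨H165R3.triE _ _ _ ((H165R3.nS _).a_pos z).ne' ((H165R3.nS _).b_pos z).ne', rfl⟩
  area := (H165R3.nS _).f_mp
  noninvertible := H165R3.nS_not_inj δ

/-- There is a smooth, ergodic, transitive, non-uniformly hyperbolic endomorphism `f` of the
two-torus preserving Lebesgue measure such that every `C¹` neighbourhood of `f` contains a smooth
non-uniformly hyperbolic endomorphism `g` preserving Lebesgue measure which is not ergodic. -/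
theorem result :
    ∃ (f : Torus → Torus) (F : ℝ × ℝ → ℝ × ℝ),
      IsEndo f F ∧ ContDiff ℝ ∞ F ∧ Ergodic f (volume : Measure Torus) ∧ IsTransitive f ∧
      IsNUH F ∧
      ∀ ε : ℝ, 0 < ε → ∃ (g : Torus → Torus) (G : ℝ × ℝ → ℝ × ℝ),
        IsEndo g G ∧ ContDiff ℝ ∞ G ∧ IsNUH G ∧ C1Close ε F G ∧
        ¬ Ergodic g (volume : Measure Torus) := by
  have h1 : Real.cos (2 * Real.pi * 0) = 1 := by rw [mul_zero, Real.cos_zero]
  refine ⟨(H165R3.nS 1).f, (H165R3.nS 1).F, ?_, (H165R3.nS 1).F_contDiff, H165R3.nS_ergodic,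
    H165R3.dense_orbit (H165R3.nS 1).f_cont H165R3.nS_ergodic, H165R3.nS_nuh 1, ?_⟩
  · have := isEndo 0
    rw [h1] at this
    exact this
  · intro ε hε
    have hcont : Tendsto (fun δ : ℝ => Real.cos (2 * Real.pi * δ)) (𝓝 0) (𝓝 1) := by
      have : Continuous fun δ : ℝ => Real.cos (2 * Real.pi * δ) := by fun_prop
      have h2 := this.tendsto 0
      rwa [h1] at h2
    have h2 : ∀ᶠ δ : ℝ in 𝓝[>] 0, |Real.cos (2 * Real.pi * δ) - 1| < ε / 300 ∧ δ < 1 / 2 ∧ 0 < δ := by
      have h3 : ∀ᶠ δ : ℝ in 𝓝 0, |Real.cos (2 * Real.pi * δ) - 1| < ε / 300 := by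
        have := (Metric.tendsto_nhds.mp hcont) (ε / 300) (by positivity)
        simpa [Real.dist_eq] using this
      have h4 : ∀ᶠ δ : ℝ in 𝓝 0, δ < 1 / 2 := eventually_lt_nhds (by norm_num)
      filter_upwards [nhdsWithin_le_nhds h3, nhdsWithin_le_nhds h4, self_mem_nhdsWithin] with δ a b c
      exact ⟨a, b, c⟩
    obtain ⟨δ, hδ1, hδ2, hδ3⟩ := h2.exists
    refine ⟨(H165R3.nS (Real.cos (2 * Real.pi * δ))).f, (H165R3.nS (Real.cos (2 * Real.pi * δ))).F,
      isEndo δ, (H165R3.nS _).F_contDiff, H165R3.nS_nuh _, ?_, H165R3.nS_not_ergodic hδ3 hδ2⟩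
    intro z
    have a1 := H165R3.nS_F_close (Real.cos (2 * Real.pi * δ)) z
    have a2 := H165R3.nS_dF_close (Real.cos (2 * Real.pi * δ)) z
    rw [norm_sub_rev] at a1 a2
    constructor
    · refine a1.trans_lt (hδ1.trans ?_)
      linarith
    · linarith

end Pool.Agent.Results.MP_9eaa6a_an.NotStablyErgodic
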